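import Pool.Agent.Q124.BC.Basic

/-!
# A 2-connected graph whose bnr-independence number exceeds its upper broadcast domination number
-/

set_option autoImplicit false
set_option maxRecDepth 20000

namespace Pool.Agent.Results.MP_20154b_co.TwelveVertices

open Finset Pool.Agent.Q124.BC

/-- 2-connected graphs: at least three vertices, connected, and no cut vertex -/
def TwoConnected {V : Type*} [Fintype V] (G : SimpleGraph V) : Prop :=
  3 ≤ Fintype.card V ∧ G.Connected ∧ ∀ v, (G.induce {u | u ≠ v}).Connected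

/-- neighbourhoods of the graph, as bit masks -/
def nbr (v : Fin 12) : ℕ :=
  [768, 1056, 2064, 960, 2948, 1858, 1960, 2904, 3833, 3577, 866, 916].getD v.1 0

/-- the graph on `0, ..., 11` with the 30 edges `0-8 0-9 1-5 1-10 2-4 2-11 3-6 3-7 3-8 3-9 4-7 4-8
4-9 4-11 5-6 5-8 5-9 5-10 6-7 6-8 6-9 6-10 7-8 7-9 7-11 8-9 8-10 8-11 9-10 9-11` -/
def graph : SimpleGraph (Fin 12) where
  Adj u v := (nbr u).testBit v = true
  symm := ⟨by decide⟩
  loopless := ⟨by decide⟩

instance : DecidableRel graph.Adj := fun u v =>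
  inferInstanceAs (Decidable ((nbr u).testBit v = true))

/-- the distance table -/
def D (u v : Fin 12) : ℕ :=
  (([[0,3,3,2,2,2,2,2,1,1,2,2],
     [3,0,4,3,3,1,2,3,2,2,1,3],
     [3,4,0,3,1,3,3,2,2,2,3,1],
     [2,3,3,0,2,2,1,1,1,1,2,2],
     [2,3,1,2,0,2,2,1,1,1,2,1],
     [2,1,3,2,2,0,1,2,1,1,1,2],
     [2,2,3,1,2,1,0,1,1,1,1,2],
     [2,3,2,1,1,2,1,0,1,1,2,1],
     [1,2,2,1,1,1,1,1,0,1,1,1],
     [1,2,2,1,1,1,1,1,1,0,1,1],
     [2,1,3,2,2,1,1,2,1,1,0,2],
     [2,3,1,2,1,2,2,1,1,1,2,0]] : List (List ℕ)).getD u.1 []).getD v.1 0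

theorem dist_graph (u v : Fin 12) : graph.Reachable u v ∧ graph.dist u v = D u v :=
  dist_eq_of graph D (by decide) (by decide +kernel) (by decide +kernel) u v

theorem dist_eq (u v : Fin 12) : graph.dist u v = D u v := (dist_graph u v).2

/-- balls and spheres of radius `1, 2, ..., e(v)` as bit masks -/
def row (v : Fin 12) : List (ℕ × ℕ) :=
  ([[(769, 769), (4089, 3320), (4095, 6)], [(1058, 1058), (1890, 832), (4091, 2201), (4095, 4)],
    [(2068, 2068), (2964, 896), (4093, 1129), (4095, 2)], [(968, 968), (4089, 3121), (4095, 6)],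
    [(2964, 2964), (4093, 1129), (4095, 2)], [(1890, 1890), (4091, 2201), (4095, 4)],
    [(2024, 2024), (4091, 2067), (4095, 4)], [(3032, 3032), (4093, 1061), (4095, 2)],
    [(4089, 4089), (4095, 6)], [(4089, 4089), (4095, 6)], [(1890, 1890), (4091, 2201), (4095, 4)],
    [(2964, 2964), (4093, 1129), (4095, 2)]] : List (List (ℕ × ℕ))).getD v.1 []

theorem row_spec (v : Fin 12) (a : ℕ) (p : ℕ × ℕ) (h : (row v)[a]? = some p) (u : Fin 12) :
    (p.1.testBit u = true ↔ D u v ≤ a + 1) ∧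
      (p.2.testBit u = true ↔ D u v = a + 1 ∨ (a = 0 ∧ D u v = 0)) := by
  have hlen : ∀ v, (row v).length ≤ 4 := by decide
  have ha : a < (row v).length := (List.getElem?_eq_some_iff.1 h).1
  have ha' : a < 4 := lt_of_lt_of_le ha (hlen v)
  have key : ∀ (v u : Fin 12) (a : Fin 4) (q : ℕ × ℕ), q ∈ (row v)[a.1]? →
      (q.1.testBit u = true ↔ D u v ≤ a.1 + 1) ∧
      (q.2.testBit u = true ↔ D u v = a.1 + 1 ∨ (a.1 = 0 ∧ D u v = 0)) := by
    decide +kernel
  exact key v u ⟨a, ha'⟩ p h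

theorem ecc_eq (v : Fin 12) : ecc graph v = (row v).length := by
  rw [ecc_eq_of graph D dist_eq]
  have : ∀ v : Fin 12, univ.sup (fun u => D u v) = (row v).length := by decide +kernel
  exact this v

theorem search : dfs row (2 ^ 12 - 1) 4 (List.finRange 12) 0 0 0 [] = true := by decide +kernel

theorem upper : upperBroadcastNumber graph ≤ 4 := by
  apply upperBroadcastNumber_le
  intro f hf
  refine sum_le_of_dfs D row 4 row_spec search f ?_ ?_ ?_
  · intro v; rw [← ecc_eq]; exact hf.1 v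
  · intro u
    obtain ⟨v, hv⟩ := hf.2.1 u
    unfold Hears at hv
    rw [dist_eq] at hv
    exact ⟨v, hv⟩
  · intro v hv
    obtain ⟨u, hu, hw⟩ := private_of_minimal graph f hf v hv
    refine ⟨u, by rw [← dist_eq]; exact hu, ?_⟩
    intro w hwv hh
    apply hw w hwv
    unfold Hears
    rw [dist_eq]
    exact hh

/-- the broadcast of weight `5` -/
def f (v : Fin 12) : ℕ := [1, 2, 2, 0, 0, 0, 0, 0, 0, 0, 0, 0].getD v.1 0

theorem lower_bound : 5 ≤ bnrNumber graph := by
  have hs : ∑ v, f v = 5 := by decide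
  rw [← hs]
  apply le_bnrNumber
  · intro v
    rw [ecc_eq]
    have : ∀ v, f v ≤ (row v).length := by decide
    exact this v
  · have : ∀ u v : Fin 12, u ≠ v → ∀ x, (1 ≤ f u ∧ D x u ≤ f u) → (1 ≤ f v ∧ D x v ≤ f v) →
        D x u = f u ∧ D x v = f v := by decide +kernel
    intro u v huv x h1 h2
    unfold Hears at h1 h2
    rw [dist_eq] at h1 h2 ⊢
    rw [dist_eq]
    exact this u v huv x h1 h2
  · apply isIrredundant_of
    have : ∀ v : Fin 12, 1 ≤ f v → ∃ u, (D u v = f v ∨ (f v = 1 ∧ D u v = 0)) ∧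
        ∀ w, w ≠ v → ¬ (1 ≤ f w ∧ D u w ≤ f w) := by decide +kernel
    simpa only [dist_eq] using this

/-- rank tables: distances to a root in the graph with one vertex deleted -/
def rank (v u : Fin 12) : ℕ :=
  (([[0,0,4,3,3,1,2,3,2,2,1,3],
     [0,0,3,2,2,2,2,2,1,1,2,2],
     [0,3,0,2,2,2,2,2,1,1,2,2],
     [0,3,3,0,2,2,2,2,1,1,2,2],
     [0,3,3,2,0,2,2,2,1,1,2,2],
     [0,3,3,2,2,0,2,2,1,1,2,2],
     [0,3,3,2,2,2,0,2,1,1,2,2],
     [0,3,3,2,2,2,2,0,1,1,2,2],
     [0,3,3,2,2,2,2,2,0,1,2,2],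
     [0,3,3,2,2,2,2,2,1,0,2,2],
     [0,3,3,2,2,2,2,2,1,1,0,2],
     [0,3,3,2,2,2,2,2,1,1,2,0]] : List (List ℕ)).getD v.1 []).getD u.1 0

/-- the root -/
def root (v : Fin 12) : Fin 12 := if v = 0 then 1 else 0

theorem root_ne (v : Fin 12) : root v ≠ v := by
  have : ∀ v, root v ≠ v := by decide
  exact this v

theorem rank_spec : ∀ v u : Fin 12, u ≠ v → u = root v ∨
    ∃ w, w ≠ v ∧ graph.Adj u w ∧ rank v w < rank v u := by decide +kernel

theorem connected_induce (v : Fin 12) : (graph.induce {u | u ≠ v}).Connected := by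
  have hreach : ∀ n (u : Fin 12) (hu : u ≠ v), rank v u ≤ n →
      (graph.induce {u | u ≠ v}).Reachable ⟨u, hu⟩ ⟨root v, root_ne v⟩ := by
    intro n
    induction n with
    | zero =>
      intro u hu hr
      rcases rank_spec v u hu with h | ⟨w, -, -, hlt⟩
      · subst h; exact SimpleGraph.Reachable.refl _
      · omega
    | succ n ih =>
      intro u hu hr
      rcases rank_spec v u hu with h | ⟨w, hw, hadj, hlt⟩
      · subst h; exact SimpleGraph.Reachable.refl _
      · refine SimpleGraph.Reachable.trans ?_ (ih w hw (by omega))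
        apply SimpleGraph.Adj.reachable
        exact hadj
  have hpre : (graph.induce {u | u ≠ v}).Preconnected := by
    rintro ⟨a, ha⟩ ⟨b, hb⟩
    exact (hreach _ a ha le_rfl).trans (hreach _ b hb le_rfl).symm
  have : Nonempty {u | u ≠ v} := ⟨⟨root v, root_ne v⟩⟩
  exact ⟨hpre⟩

theorem twoConnected : TwoConnected graph := by
  refine ⟨by simp, ⟨fun u v => (dist_graph u v).1⟩, connected_induce⟩

/-- **Main result.** There is a 2-connected graph (on 12 vertices, with bnr-independence number at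
least `5` and upper broadcast domination number at most `4`) with `Γ_b(G) < α_bnr(G)`. -/
theorem result : TwoConnected graph ∧ upperBroadcastNumber graph < bnrNumber graph :=
  ⟨twoConnected, lt_of_le_of_lt upper lower_bound⟩

end Pool.Agent.Results.MP_20154b_co.TwelveVertices
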